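import Pool.Agent.L5helper98.CG.Defs

/-! Job CG-NEG for helper98: negative moments of the model. -/

set_option autoImplicit false

open MeasureTheory ProbabilityTheory Filter Topology Set
open scoped ENNReal

namespace Pool.Agent.L5helper75.CG

open Pool.Agent.L5helper98.CG

open scoped MatrixOrder Matrix.Norms.L2Operator in
theorem gm_zero {n : ℕ} (p : Fin n → ℝ) (q : ℝ) :
    gm (0 : Matrix (Fin n) (Fin n) ℝ) p q = ENNReal.ofReal ((∑ i, p i) ^ q) := by
  unfold gm
  have h : multivariateGaussian (0 : EuclideanSpace ℝ (Fin n)) (0 : Matrix (Fin n) (Fin n) ℝ) =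
      Measure.dirac 0 := by
    rw [multivariateGaussian, CFC.sqrt_zero, map_zero]
    simp
  rw [h, lintegral_dirac]
  simp

/-- a constant matrix -/
theorem psd_const {n : ℕ} {b : ℝ} (hb : 0 ≤ b) :
    Matrix.PosSemidef (fun _ _ : Fin n => b : Matrix (Fin n) (Fin n) ℝ) := by
  have h := Matrix.posSemidef_self_mul_conjTranspose
    (fun _ _ => Real.sqrt b : Matrix (Fin n) (Fin 1) ℝ)
  convert h using 1
  ext i j
  simp [Matrix.mul_apply, Real.mul_self_sqrt hb]

theorem psd_add_const {n : ℕ} {C : Matrix (Fin n) (Fin n) ℝ} (hC : C.PosSemidef) {b : ℝ}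
    (hb : 0 ≤ b) : Matrix.PosSemidef (fun i j => C i j + b : Matrix (Fin n) (Fin n) ℝ) :=
  hC.add (psd_const hb)

/-- the normalised sum -/
noncomputable def Z (n : ℕ) (c : ℝ) (u : Fin n → ℝ) : ℝ :=
  ∑ i, 1 / (n : ℝ) * Real.exp (u i - c / 2)

theorem Z_pos {n : ℕ} (hn : 1 ≤ n) (c : ℝ) (u : Fin n → ℝ) : 0 < Z n c u := by
  haveI : Nonempty (Fin n) := ⟨⟨0, hn⟩⟩
  have hn' : (0 : ℝ) < n := by exact_mod_cast hn
  exact Finset.sum_pos (fun i _ => by positivity) Finset.univ_nonempty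

theorem Z_meas (n : ℕ) (c : ℝ) : Measurable (Z n c) := by
  unfold Z
  fun_prop

theorem aa_eq (m : ℝ) (n : ℕ) (q : ℝ) : aa m n q =
    ∫⁻ x : EuclideanSpace ℝ (Fin n), ENNReal.ofReal (Z n (kap m n 0) (fun i => x i) ^ q)
      ∂(multivariateGaussian 0 (Kap m n n)) := by
  unfold aa gm
  refine lintegral_congr fun x => ?_
  unfold Z Kap
  simp only [Nat.dist_self]

/-! ### the three blocks -/

def fA (n : ℕ) (i : Fin n) : Fin (3 * n) := ⟨i, by have := i.2; omega⟩
def fC (n : ℕ) (i : Fin n) : Fin (3 * n) := ⟨2 * n + i, by have := i.2; omega⟩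

theorem fA_inj (n : ℕ) : Function.Injective (fA n) := fun i j h => by
  have := congrArg Fin.val h
  simp only [fA] at this
  exact Fin.ext this

theorem fC_inj (n : ℕ) : Function.Injective (fC n) := fun i j h => by
  have := congrArg Fin.val h
  simp only [fC] at this
  exact Fin.ext (by omega)

theorem sub_A (m : ℝ) (n : ℕ) : (Kap m n (3 * n)).submatrix (fA n) (fA n) = Kap m n n := by
  ext i j
  rfl

theorem sub_C (m : ℝ) (n : ℕ) : (Kap m n (3 * n)).submatrix (fC n) (fC n) = Kap m n n := by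
  ext i j
  show kap m n (Nat.dist (2 * n + i) (2 * n + j)) = kap m n (Nat.dist i j)
  congr 1
  unfold Nat.dist
  omega

theorem sum_blocks {n : ℕ} {h : Fin (3 * n) → ℝ} (hh : ∀ i, 0 ≤ h i) :
    ∑ i, h (fA n i) + ∑ i, h (fC n i) ≤ ∑ i, h i := by
  classical
  have h1 : Disjoint (Finset.univ.map ⟨fA n, fA_inj n⟩) (Finset.univ.map ⟨fC n, fC_inj n⟩) := by
    rw [Finset.disjoint_left]
    intro x hx hy
    obtain ⟨i, -, rfl⟩ := Finset.mem_map.1 hx
    obtain ⟨j, -, hj⟩ := Finset.mem_map.1 hy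
    have := congrArg Fin.val hj
    simp only [Function.Embedding.coeFn_mk, fA, fC] at this
    have := i.2
    omega
  have h2 : ∑ i, h (fA n i) + ∑ i, h (fC n i) =
      ∑ i ∈ (Finset.univ.map ⟨fA n, fA_inj n⟩).disjUnion (Finset.univ.map ⟨fC n, fC_inj n⟩) h1,
        h i := by
    rw [Finset.sum_disjUnion, Finset.sum_map, Finset.sum_map]
    rfl
  rw [h2]
  exact Finset.sum_le_sum_of_subset_of_nonneg (Finset.subset_univ _) fun i _ _ => hh i

/-- the recursion -/
theorem rec1 (hKAH : St_KAH) (hADD : St_ADD) (hKPSD : St_KPSD) (hKLOG : St_KLOG) {m : ℝ}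
    (hm : 0 < m) {n : ℕ} (hn : 1 ≤ n) {s : ℝ} (hs : 0 < s) :
    aa m (3 * n) (-s) ≤ ENNReal.ofReal (Real.exp (m * Real.log 3 * (-s * (-s - 1)) / 2)) *
      (ENNReal.ofReal (3 ^ s) * ∫⁻ x : EuclideanSpace ℝ (Fin (3 * n)),
        ENNReal.ofReal ((Z n (kap m n 0) (fun i => x (fA n i)) +
          Z n (kap m n 0) (fun i => x (fC n i))) ^ (-s))
        ∂(multivariateGaussian 0 (Kap m n (3 * n)))) := by
  obtain ⟨-, -, -, hk4, hk5⟩ := hKLOG
  have hn0 : (0 : ℝ) < n := by exact_mod_cast hn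
  have hb : 0 ≤ m * Real.log 3 := mul_nonneg hm.le (Real.log_nonneg (by norm_num))
  have h1 : aa m (3 * n) (-s) ≤ gm (fun i j => Kap m n (3 * n) i j + m * Real.log 3)
      (fun _ => 1 / ((3 * n : ℕ) : ℝ)) (-s) := by
    unfold aa
    refine (hKAH _ _ _ (hKPSD m (3 * n) (3 * n) hm.le) (psd_add_const (hKPSD m n (3 * n) hm.le) hb)
      _ (fun i => by positivity) ⟨⟨0, by omega⟩, by positivity⟩ ?_ (-s)).1 (Or.inr (by linarith))
    intro i j _ _
    show kap m (3 * n) _ ≤ kap m n _ + m * Real.log 3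
    rw [hk5 m (3 * n), hk5 m n]
    have h2 := hk4 n (3 * n) (Nat.dist (i : ℕ) (j : ℕ)) hn (by omega)
    have h3 : (((3 * n : ℕ) : ℝ) / n) = 3 := by
      push_cast
      field_simp
    rw [h3] at h2
    nlinarith
  refine h1.trans ?_
  rw [hADD _ _ (hKPSD m n (3 * n) hm.le) _ hb _ (fun i => by positivity) (-s)]
  refine mul_le_mul_right ?_ _
  unfold gm
  rw [← lintegral_const_mul' _ _ ENNReal.ofReal_ne_top]
  refine lintegral_mono fun x => ?_
  have hZA := Z_pos hn (kap m n 0) (fun i => x (fA n i))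
  have hZC := Z_pos hn (kap m n 0) (fun i => x (fC n i))
  have hsum : 1 / 3 * (Z n (kap m n 0) (fun i => x (fA n i)) + Z n (kap m n 0) (fun i => x (fC n i))) ≤
      ∑ i, 1 / ((3 * n : ℕ) : ℝ) * Real.exp (x i - Kap m n (3 * n) i i / 2) := by
    have h4 := sum_blocks (n := n)
      (h := fun i => 1 / ((3 * n : ℕ) : ℝ) * Real.exp (x i - Kap m n (3 * n) i i / 2))
      (fun i => by positivity)
    refine le_trans (le_of_eq ?_) h4
    unfold Z
    rw [mul_add, Finset.mul_sum, Finset.mul_sum]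
    congr 1
    · refine Finset.sum_congr rfl fun i _ => ?_
      unfold Kap
      simp only [Nat.dist_self]
      push_cast
      field_simp
    · refine Finset.sum_congr rfl fun i _ => ?_
      unfold Kap
      simp only [Nat.dist_self]
      push_cast
      field_simp
  have hle : (∑ i, 1 / ((3 * n : ℕ) : ℝ) * Real.exp (x i - Kap m n (3 * n) i i / 2)) ^ (-s) ≤
      3 ^ s * (Z n (kap m n 0) (fun i => x (fA n i)) +
        Z n (kap m n 0) (fun i => x (fC n i))) ^ (-s) := by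
    refine (Real.rpow_le_rpow_of_nonpos (by positivity) hsum (by linarith)).trans (le_of_eq ?_)
    rw [Real.mul_rpow (by norm_num) (by positivity)]
    congr 1
    rw [one_div, Real.inv_rpow (by norm_num), Real.rpow_neg (by norm_num), inv_inv]
  rw [← ENNReal.ofReal_mul (by positivity)]
  exact ENNReal.ofReal_le_ofReal hle

theorem ind1 (hIND : St_IND) (hKPSD : St_KPSD) (hKLOG : St_KLOG) {m : ℝ} (hm : 0 < m) {n : ℕ}
    (F G : (Fin n → ℝ) → ℝ≥0∞) (hF : Measurable F) (hG : Measurable G) :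
    ∫⁻ x : EuclideanSpace ℝ (Fin (3 * n)), F (fun i => x (fA n i)) * G (fun i => x (fC n i))
        ∂(multivariateGaussian 0 (Kap m n (3 * n))) =
      (∫⁻ x : EuclideanSpace ℝ (Fin n), F (fun i => x i) ∂(multivariateGaussian 0 (Kap m n n))) *
      ∫⁻ x : EuclideanSpace ℝ (Fin n), G (fun i => x i) ∂(multivariateGaussian 0 (Kap m n n)) := by
  obtain ⟨hk1, -, -, -, hk5⟩ := hKLOG
  have h := hIND (3 * n) n n (Kap m n (3 * n)) (hKPSD m n (3 * n) hm.le) (fA n) (fC n) (fA_inj n)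
    (fC_inj n) (fun i j => by
      show kap m n (Nat.dist (i : ℕ) (2 * n + j)) = 0
      rw [hk5, hk1 n _ (by
        have := i.2
        unfold Nat.dist
        omega), mul_zero]) F G hF hG
  rw [h, sub_A, sub_C]

/-- doubling -/
theorem rec2 (hKAH : St_KAH) (hADD : St_ADD) (hIND : St_IND) (hKPSD : St_KPSD) (hKLOG : St_KLOG)
    {m : ℝ} (hm : 0 < m) {n : ℕ} (hn : 1 ≤ n) {s : ℝ} (hs : 0 < s) :
    aa m (3 * n) (-(2 * s)) ≤
      ENNReal.ofReal (Real.exp (m * Real.log 3 * (-(2 * s) * (-(2 * s) - 1)) / 2)) *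
      (ENNReal.ofReal (3 ^ (2 * s)) * (aa m n (-s) * aa m n (-s))) := by
  refine (rec1 hKAH hADD hKPSD hKLOG hm hn (s := 2 * s) (by linarith)).trans ?_
  refine mul_le_mul_right (mul_le_mul_right ?_ _) _
  have hm' : Measurable fun u : Fin n → ℝ => ENNReal.ofReal (Z n (kap m n 0) u ^ (-s)) :=
    ENNReal.measurable_ofReal.comp ((Z_meas n _).pow_const _)
  have h := ind1 hIND hKPSD hKLOG hm _ _ hm' hm'
  rw [aa_eq, ← h]
  refine lintegral_mono fun x => ?_
  have hA := Z_pos hn (kap m n 0) (fun i => x (fA n i))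
  have hC := Z_pos hn (kap m n 0) (fun i => x (fC n i))
  show _ ≤ ENNReal.ofReal (Z n (kap m n 0) (fun i => x (fA n i)) ^ (-s)) *
    ENNReal.ofReal (Z n (kap m n 0) (fun i => x (fC n i)) ^ (-s))
  rw [← ENNReal.ofReal_mul (by positivity)]
  apply ENNReal.ofReal_le_ofReal
  generalize Z n (kap m n 0) (fun i => x (fA n i)) = a at *
  generalize Z n (kap m n 0) (fun i => x (fC n i)) = b at *
  have e : -(2 * s) = -s + -s := by ring
  rw [e, Real.rpow_add (by positivity)]
  exact mul_le_mul (Real.rpow_le_rpow_of_nonpos hA (by linarith) (by linarith))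
    (Real.rpow_le_rpow_of_nonpos hC (by linarith) (by linarith)) (by positivity) (by positivity)

/-- the probability of a small value -/
noncomputable def pr (m : ℝ) (n : ℕ) : ℝ≥0∞ :=
  ∫⁻ x : EuclideanSpace ℝ (Fin n),
    (Set.indicator {u : Fin n → ℝ | Z n (kap m n 0) u < 1 / 2} 1 : (Fin n → ℝ) → ℝ≥0∞)
      (fun i => x i) ∂(multivariateGaussian 0 (Kap m n n))

/-- small exponents -/
theorem rec3 (hKAH : St_KAH) (hADD : St_ADD) (hIND : St_IND) (hKPSD : St_KPSD) (hKLOG : St_KLOG)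
    {m : ℝ} (hm : 0 < m) {n : ℕ} (hn : 1 ≤ n) {s : ℝ} (hs : 0 < s) :
    aa m (3 * n) (-s) ≤
      ENNReal.ofReal (Real.exp (m * Real.log 3 * (-s * (-s - 1)) / 2)) *
      (ENNReal.ofReal (3 ^ s) * (ENNReal.ofReal (2 ^ s) + pr m n * aa m n (-s))) := by
  refine (rec1 hKAH hADD hKPSD hKLOG hm hn hs).trans ?_
  refine mul_le_mul_right (mul_le_mul_right ?_ _) _
  have hm' : Measurable fun u : Fin n → ℝ => ENNReal.ofReal (Z n (kap m n 0) u ^ (-s)) :=
    ENNReal.measurable_ofReal.comp ((Z_meas n _).pow_const _)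
  have hm2 : Measurable (Set.indicator {u : Fin n → ℝ | Z n (kap m n 0) u < 1 / 2} 1 :
      (Fin n → ℝ) → ℝ≥0∞) :=
    measurable_one.indicator (measurableSet_lt (Z_meas n _) measurable_const)
  have h := ind1 hIND hKPSD hKLOG hm _ _ hm2 hm'
  rw [aa_eq, pr, ← h]
  have hc : ENNReal.ofReal (2 ^ s) = ∫⁻ _ : EuclideanSpace ℝ (Fin (3 * n)),
      ENNReal.ofReal (2 ^ s) ∂(multivariateGaussian 0 (Kap m n (3 * n))) := by
    rw [lintegral_const, measure_univ, mul_one]
  conv_rhs => rw [hc]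
  rw [← lintegral_add_left measurable_const]
  refine lintegral_mono fun x => ?_
  have hA := Z_pos hn (kap m n 0) (fun i => x (fA n i))
  have hC := Z_pos hn (kap m n 0) (fun i => x (fC n i))
  by_cases hlt : Z n (kap m n 0) (fun i => x (fA n i)) < 1 / 2
  · refine le_trans ?_ le_add_self
    rw [Set.indicator_of_mem (show (fun i => x (fA n i)) ∈
      {u : Fin n → ℝ | Z n (kap m n 0) u < 1 / 2} from hlt), Pi.one_apply, one_mul]
    exact ENNReal.ofReal_le_ofReal (Real.rpow_le_rpow_of_nonpos hC (by linarith) (by linarith))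
  · refine le_trans ?_ le_self_add
    push Not at hlt
    apply ENNReal.ofReal_le_ofReal
    refine (Real.rpow_le_rpow_of_nonpos (by norm_num : (0 : ℝ) < 1 / 2) (by linarith)
      (by linarith)).trans (le_of_eq ?_)
    rw [one_div, Real.inv_rpow (by norm_num), Real.rpow_neg (by norm_num), inv_inv]

theorem aa_one (hKAH : St_KAH) (hKPSD : St_KPSD) (hKLOG : St_KLOG) {m : ℝ} (hm : 0 < m) {n : ℕ}
    (hn : 1 ≤ n) : aa m n 1 = 1 := by
  have hn0 : (0 : ℝ) < n := by exact_mod_cast hn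
  have h := hKAH n 0 (Kap m n n) Matrix.PosSemidef.zero (hKPSD m n n hm.le) (fun _ => 1 / (n : ℝ))
    (fun i => by positivity) ⟨⟨0, hn⟩, by positivity⟩ (fun i j _ _ => by
      show (0 : ℝ) ≤ kap m n _
      rw [hKLOG.2.2.2.2]
      exact mul_nonneg hm.le (hKLOG.2.1 _ _)) 1
  have h1 : aa m n 1 = gm (0 : Matrix (Fin n) (Fin n) ℝ) (fun _ => 1 / (n : ℝ)) 1 :=
    le_antisymm (h.2 (by norm_num) le_rfl) (h.1 (Or.inl le_rfl))
  rw [h1, gm_zero, Real.rpow_one, Finset.sum_const, Finset.card_univ, Fintype.card_fin,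
    nsmul_eq_mul, mul_one_div_cancel hn0.ne', ENNReal.ofReal_one]

theorem aa_base (hADD : St_ADD) (hKLOG : St_KLOG) {m : ℝ} (hm : 0 < m) (q : ℝ) :
    aa m 1 q < ∞ := by
  have hb : 0 ≤ kap m 1 0 := by
    rw [hKLOG.2.2.2.2]
    exact mul_nonneg hm.le (hKLOG.2.1 _ _)
  have e : Kap m 1 1 = fun i j => (0 : Matrix (Fin 1) (Fin 1) ℝ) i j + kap m 1 0 := by
    ext i j
    have hij : i = j := Subsingleton.elim _ _
    subst hij
    show kap m 1 (Nat.dist (i : ℕ) (i : ℕ)) = 0 + kap m 1 0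
    rw [Nat.dist_self, zero_add]
  unfold aa
  rw [e, hADD 1 0 Matrix.PosSemidef.zero _ hb _ (fun i => by positivity) q, gm_zero]
  exact ENNReal.mul_lt_top ENNReal.ofReal_lt_top ENNReal.ofReal_lt_top

/-- the probability of a small value is bounded away from one -/
theorem pr_le (hKAH : St_KAH) (hKPSD : St_KPSD) (hKLOG : St_KLOG) (hPOS : St_POS) {m : ℝ}
    (hm : 0 < m) (hm2 : m < 2) :
    ∃ c : ℝ, 0 < c ∧ c < 1 ∧ ∀ k : ℕ, pr m (3 ^ k) ≤ ENNReal.ofReal (1 - c) := by
  obtain ⟨q, hq1, hq2⟩ : ∃ q : ℝ, 1 < q ∧ m * q < 2 := by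
    have h1 : 1 < 2 / m := by rw [lt_div_iff₀ hm]; linarith
    obtain ⟨q, hq, hq'⟩ := exists_between h1
    exact ⟨q, hq, by rw [lt_div_iff₀ hm] at hq'; linarith⟩
  obtain ⟨B, hB, hBk⟩ := hPOS m q hm hq1 hq2
  have hBr : 0 ≤ B.toReal := ENNReal.toReal_nonneg
  obtain ⟨T, hT⟩ : ∃ T : ℝ, T = (4 * B.toReal + 1) ^ (1 / (q - 1)) := ⟨_, rfl⟩
  have hT1 : 1 ≤ T := by
    rw [hT]
    exact Real.one_le_rpow (by linarith) (by
      apply le_of_lt
      apply div_pos one_pos
      linarith)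
  have hT0 : 0 < T := by linarith
  have hTq : T ^ (1 - q) = (4 * B.toReal + 1)⁻¹ := by
    rw [hT, ← Real.rpow_mul (by linarith)]
    have : 1 / (q - 1) * (1 - q) = -1 := by
      have h2 : q - 1 ≠ 0 := by linarith
      field_simp
      ring
    rw [this, Real.rpow_neg_one]
  have hTB : T ^ (1 - q) * B.toReal ≤ 1 / 4 := by
    rw [hTq, inv_mul_le_iff₀ (by linarith)]
    linarith
  refine ⟨1 / (4 * T), by positivity, ?_, fun k => ?_⟩
  · rw [div_lt_one (by positivity)]
    linarith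
  · have hn : 1 ≤ 3 ^ k := Nat.one_le_pow _ _ (by norm_num)
    generalize hnk : 3 ^ k = n at *
    have hBn := hBk k
    rw [hnk] at hBn
    -- the integrated inequality
    have hle : aa m n 1 + ENNReal.ofReal T * pr m n ≤
        ENNReal.ofReal (1 / 2 + T) + ENNReal.ofReal (T ^ (1 - q)) * aa m n q := by
      rw [aa_eq m n 1, aa_eq m n q, pr, ← lintegral_const_mul' _ _ ENNReal.ofReal_ne_top,
        ← lintegral_const_mul' _ _ ENNReal.ofReal_ne_top]
      refine (le_lintegral_add _ _).trans ?_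
      have hc : ENNReal.ofReal (1 / 2 + T) = ∫⁻ _ : EuclideanSpace ℝ (Fin n),
          ENNReal.ofReal (1 / 2 + T) ∂(multivariateGaussian 0 (Kap m n n)) := by
        rw [lintegral_const, measure_univ, mul_one]
      conv_rhs => rw [hc]
      rw [← lintegral_add_left measurable_const]
      refine lintegral_mono fun x => ?_
      have hZ := Z_pos hn (kap m n 0) (fun i => x i)
      rw [Real.rpow_one]
      by_cases hlt : Z n (kap m n 0) (fun i => x i) < 1 / 2
      · rw [Set.indicator_of_mem (show (fun i => x i) ∈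
          {u : Fin n → ℝ | Z n (kap m n 0) u < 1 / 2} from hlt), Pi.one_apply, mul_one]
        refine le_trans ?_ le_self_add
        rw [← ENNReal.ofReal_add hZ.le hT0.le]
        exact ENNReal.ofReal_le_ofReal (by linarith)
      · rw [Set.indicator_of_notMem (show (fun i => x i) ∉
          {u : Fin n → ℝ | Z n (kap m n 0) u < 1 / 2} from hlt), mul_zero, add_zero,
          ← ENNReal.ofReal_mul (by positivity), ← ENNReal.ofReal_add (by positivity) (by positivity)]
        apply ENNReal.ofReal_le_ofReal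
        generalize Z n (kap m n 0) (fun i => x i) = z at *
        by_cases hzT : z ≤ T
        · have : 0 ≤ T ^ (1 - q) * z ^ q := by positivity
          linarith
        · push Not at hzT
          have h3 : z ^ (1 - q) ≤ T ^ (1 - q) :=
            Real.rpow_le_rpow_of_nonpos hT0 hzT.le (by linarith)
          have h4 : z = z ^ (1 - q) * z ^ q := by
            rw [← Real.rpow_add hZ]
            norm_num
          have h5 : z ^ (1 - q) * z ^ q ≤ T ^ (1 - q) * z ^ q :=
            mul_le_mul_of_nonneg_right h3 (by positivity)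
          linarith
    rw [aa_one hKAH hKPSD hKLOG hm hn] at hle
    have hle2 : 1 + ENNReal.ofReal T * pr m n ≤
        ENNReal.ofReal (1 / 2 + T) + ENNReal.ofReal (T ^ (1 - q)) * ENNReal.ofReal B.toReal := by
      refine hle.trans ?_
      rw [ENNReal.ofReal_toReal hB.ne]
      exact add_le_add le_rfl (mul_le_mul_right hBn _)
    rw [← ENNReal.ofReal_mul (by positivity), ← ENNReal.ofReal_add (by positivity) (by positivity)]
      at hle2
    have hprtop : pr m n ≠ ∞ := by
      intro htop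
      rw [htop, ENNReal.mul_top (by simpa using hT0), add_top] at hle2
      exact absurd hle2 (not_le.2 ENNReal.ofReal_lt_top)
    have hle3 : 1 + T * (pr m n).toReal ≤ 1 / 2 + T + T ^ (1 - q) * B.toReal := by
      have h6 := ENNReal.toReal_mono ENNReal.ofReal_ne_top hle2
      rw [ENNReal.toReal_ofReal (by positivity), ENNReal.toReal_add ENNReal.one_ne_top
        (ENNReal.mul_ne_top ENNReal.ofReal_ne_top hprtop), ENNReal.toReal_mul,
        ENNReal.toReal_ofReal hT0.le, ENNReal.toReal_one] at h6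
      exact h6
    have hfin : (pr m n).toReal ≤ 1 - 1 / (4 * T) := by
      have h7 : T * (pr m n).toReal ≤ T - 1 / 4 := by linarith
      have h8 : T * (1 - 1 / (4 * T)) = T - 1 / 4 := by field_simp
      rw [← h8] at h7
      exact le_of_mul_le_mul_left h7 hT0
    rw [← ENNReal.ofReal_toReal hprtop]
    exact ENNReal.ofReal_le_ofReal hfin

/-- **NEG** -/
theorem NEG_holds (hKAH : St_KAH) (hADD : St_ADD) (hIND : St_IND) (hKPSD : St_KPSD)
    (hKLOG : St_KLOG) (hPOS : St_POS) : St_NEG := by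
  intro m q hm hm2 hq
  obtain ⟨c, hc0, hc1, hc⟩ := pr_le hKAH hKPSD hKLOG hPOS hm hm2
  -- small exponents
  have small : ∃ s₀ : ℝ, 0 < s₀ ∧ ∀ s : ℝ, 0 < s → s < s₀ →
      ∃ B : ℝ≥0∞, B < ∞ ∧ ∀ k : ℕ, aa m (3 ^ k) (-s) ≤ B := by
    have hcont : ContinuousAt (fun s : ℝ => Real.exp (m * Real.log 3 * (-s * (-s - 1)) / 2) *
        3 ^ s * (1 - c)) 0 := by
      apply ContinuousAt.mul _ continuousAt_const
      apply ContinuousAt.mul
      · fun_prop
      · exact continuousAt_const.rpow continuousAt_id (Or.inl (by norm_num))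
    have hlt : (fun s : ℝ => Real.exp (m * Real.log 3 * (-s * (-s - 1)) / 2) *
        3 ^ s * (1 - c)) 0 < 1 := by
      simp
      exact hc0
    obtain ⟨δ, hδ, hδ'⟩ := Metric.eventually_nhds_iff.1 (hcont.eventually_lt_const hlt)
    refine ⟨δ, hδ, fun s hs hsδ => ?_⟩
    have hA := hδ' (y := s) (by rw [Real.dist_eq, sub_zero, abs_of_pos hs]; exact hsδ)
    generalize hAdef : Real.exp (m * Real.log 3 * (-s * (-s - 1)) / 2) = E at hA
    have hE : 0 < E := hAdef ▸ Real.exp_pos _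
    have h3s : (0 : ℝ) < 3 ^ s := by positivity
    have hAc : E * 3 ^ s * (1 - c) < 1 := hA
    have hgap : 0 < 1 - E * 3 ^ s * (1 - c) := by linarith
    have hbase := aa_base hADD hKLOG hm (-s)
    obtain ⟨D, hD⟩ : ∃ D : ℝ, D = max (aa m 1 (-s)).toReal
      (E * 3 ^ s * 2 ^ s / (1 - E * 3 ^ s * (1 - c))) := ⟨_, rfl⟩
    have hD0 : 0 ≤ D := by rw [hD]; exact le_max_of_le_left ENNReal.toReal_nonneg
    have hD1 : (aa m 1 (-s)).toReal ≤ D := by rw [hD]; exact le_max_left _ _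
    have hD2 : E * 3 ^ s * 2 ^ s ≤ D * (1 - E * 3 ^ s * (1 - c)) := by
      rw [← div_le_iff₀ hgap, hD]
      exact le_max_right _ _
    refine ⟨ENNReal.ofReal D, ENNReal.ofReal_lt_top, fun k => ?_⟩
    induction k with
    | zero =>
      rw [pow_zero, ← ENNReal.ofReal_toReal hbase.ne]
      exact ENNReal.ofReal_le_ofReal hD1
    | succ k ih =>
      rw [pow_succ']
      have hn : 1 ≤ 3 ^ k := Nat.one_le_pow _ _ (by norm_num)
      refine (rec3 hKAH hADD hIND hKPSD hKLOG hm hn hs).trans ?_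
      rw [hAdef]
      calc ENNReal.ofReal E * (ENNReal.ofReal (3 ^ s) * (ENNReal.ofReal (2 ^ s) +
            pr m (3 ^ k) * aa m (3 ^ k) (-s)))
          ≤ ENNReal.ofReal E * (ENNReal.ofReal (3 ^ s) * (ENNReal.ofReal (2 ^ s) +
            ENNReal.ofReal (1 - c) * ENNReal.ofReal D)) := by
            gcongr
            exact hc k
        _ = ENNReal.ofReal (E * (3 ^ s * (2 ^ s + (1 - c) * D))) := by
            rw [← ENNReal.ofReal_mul (by linarith), ← ENNReal.ofReal_add (by positivity)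
              (mul_nonneg (by linarith) hD0), ← ENNReal.ofReal_mul (by positivity),
              ← ENNReal.ofReal_mul hE.le]
        _ ≤ ENNReal.ofReal D := ENNReal.ofReal_le_ofReal (by nlinarith)
  -- doubling
  have double : ∀ s : ℝ, 0 < s → (∃ B : ℝ≥0∞, B < ∞ ∧ ∀ k : ℕ, aa m (3 ^ k) (-s) ≤ B) →
      ∃ B : ℝ≥0∞, B < ∞ ∧ ∀ k : ℕ, aa m (3 ^ k) (-(2 * s)) ≤ B := by
    rintro s hs ⟨B, hB, hBk⟩
    refine ⟨max (aa m 1 (-(2 * s)))
      (ENNReal.ofReal (Real.exp (m * Real.log 3 * (-(2 * s) * (-(2 * s) - 1)) / 2)) *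
      (ENNReal.ofReal (3 ^ (2 * s)) * (B * B))), max_lt (aa_base hADD hKLOG hm _)
      (ENNReal.mul_lt_top ENNReal.ofReal_lt_top (ENNReal.mul_lt_top ENNReal.ofReal_lt_top
        (ENNReal.mul_lt_top hB hB))), fun k => ?_⟩
    cases k with
    | zero => rw [pow_zero]; exact le_max_left _ _
    | succ k =>
      rw [pow_succ']
      have hn : 1 ≤ 3 ^ k := Nat.one_le_pow _ _ (by norm_num)
      refine le_trans ?_ (le_max_right _ _)
      refine (rec2 hKAH hADD hIND hKPSD hKLOG hm hn hs).trans ?_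
      gcongr
      · exact hBk k
      · exact hBk k
  -- all exponents
  obtain ⟨s₀, hs₀, hsmall⟩ := small
  have all : ∀ (j : ℕ) (s : ℝ), 0 < s → s / 2 ^ j < s₀ →
      ∃ B : ℝ≥0∞, B < ∞ ∧ ∀ k : ℕ, aa m (3 ^ k) (-s) ≤ B := by
    intro j
    induction j with
    | zero => intro s hs h; exact hsmall s hs (by simpa using h)
    | succ j ih =>
      intro s hs h
      have h1 := double (s / 2) (by linarith) (ih (s / 2) (by linarith) (by
        rw [div_div, ← pow_succ']
        exact h))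
      rwa [show 2 * (s / 2) = s by ring] at h1
  obtain ⟨j, hj⟩ : ∃ j : ℕ, -q / 2 ^ j < s₀ := by
    obtain ⟨j, hj⟩ := exists_nat_gt (-q / s₀)
    refine ⟨j, ?_⟩
    rw [div_lt_iff₀ (by positivity)]
    rw [div_lt_iff₀ hs₀] at hj
    have h2 : (j : ℝ) ≤ 2 ^ j := by exact_mod_cast Nat.lt_two_pow_self.le
    nlinarith
  have hfin := all j (-q) (by linarith) hj
  rwa [neg_neg] at hfin

end Pool.Agent.L5helper75.CG
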