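import Mathlib
import Pool.Agent.L5helper98.CG.Defs
import Pool.Agent.L5helper94.CG.RIE

set_option autoImplicit false

open MeasureTheory ProbabilityTheory Filter Topology Set
open scoped ENNReal BoundedContinuousFunction

namespace Pool.Agent.L5helper75.CG

open Pool.Agent.L5helper98.CG

theorem POSW_holds : St_POSW := by
  intro c r μ ε _ hμ hε _ Ω _ P _ ω h
  have hae := Pool.Agent.L5helper94.CG.ae_int h
  refine ⟨hae, ?_, ?_, ?_⟩
  · intro w hw
    have hm : Measurable (Function.uncurry fun (x : Ω) (u : ℝ) => w u * Real.exp (ω u x)) :=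
      (hw.comp measurable_snd).mul (Real.measurable_exp.comp (h.meas.comp measurable_swap))
    exact (hm.stronglyMeasurable.integral_prod_right
      (ν := (volume : Measure ℝ).restrict (Ico (0 : ℝ) 1))).measurable
  · intro a b ha hab hb
    filter_upwards [hae] with x hx
    have hx' : IntegrableOn (fun u => Real.exp (ω u x)) (Ico a b) :=
      hx.mono_set (Ico_subset_Ico ha hb)
    rw [integral_pos_iff_support_of_nonneg (fun u => (Real.exp_pos _).le) hx']
    have hs : Function.support (fun u => Real.exp (ω u x)) = univ := by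
      ext u
      simp [Real.exp_ne_zero]
    rw [hs, Measure.restrict_apply_univ, Real.volume_Ico]
    exact ENNReal.ofReal_pos.2 (by linarith)
  · intro w hw hw0 hwK
    obtain ⟨K, hK⟩ := hwK
    have hwb : ∀ u, ‖w u‖ ≤ K := fun u => by
      rw [Real.norm_of_nonneg (hw0 u)]; exact hK u
    have hm : Measurable (Function.uncurry fun (x : Ω) (u : ℝ) =>
        ENNReal.ofReal (w u * Real.exp (ω u x))) :=
      ((hw.comp measurable_snd).mul
        (Real.measurable_exp.comp (h.meas.comp measurable_swap))).ennreal_ofReal
    have h1 : ∫⁻ x, ENNReal.ofReal (mass w ω x) ∂P =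
        ∫⁻ x, (∫⁻ u in Ico (0 : ℝ) 1, ENNReal.ofReal (w u * Real.exp (ω u x))) ∂P := by
      refine lintegral_congr_ae ?_
      filter_upwards [hae] with x hx
      unfold mass
      refine ofReal_integral_eq_lintegral_ofReal ?_ ?_
      · exact hx.bdd_mul hw.aestronglyMeasurable (Eventually.of_forall hwb)
      · exact Eventually.of_forall fun u => mul_nonneg (hw0 u) (Real.exp_pos _).le
    have hwi : IntegrableOn w (Ico (0 : ℝ) 1) := by
      refine Measure.integrableOn_of_bounded (M := K) ?_ hw.aestronglyMeasurable
        (Eventually.of_forall hwb)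
      rw [Real.volume_Ico]; exact ENNReal.ofReal_ne_top
    rw [h1, lintegral_lintegral_swap hm.aemeasurable,
      ofReal_integral_eq_lintegral_ofReal hwi (Eventually.of_forall hw0)]
    refine setLIntegral_congr_fun measurableSet_Ico ?_
    intro u hu
    obtain ⟨hi, he⟩ := Pool.Agent.L5helper94.CG.field_exp_one h hu
    have h2 : ∀ x, ENNReal.ofReal (w u * Real.exp (ω u x)) =
        ENNReal.ofReal (w u) * ENNReal.ofReal (Real.exp (ω u x)) := fun x =>
      ENNReal.ofReal_mul (hw0 u)
    simp only [h2]
    rw [lintegral_const_mul]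
    · rw [← ofReal_integral_eq_lintegral_ofReal hi
        (Eventually.of_forall fun x => (Real.exp_pos _).le), he]
      simp
    · exact (Real.measurable_exp.comp (Pool.Agent.L5helper94.CG.field_meas h u)).ennreal_ofReal

end Pool.Agent.L5helper75.CG
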